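import Pool.Agent.W739.SOS.Link2

/-!
# Q2 of MP_39acf6_an: the minimal rank does not depend on the degree

A diagonal Hermitian polynomial of bidegree `(d,d)` in `n` variables is given by its real coefficients
`c α`, `|α| = d`.  The coefficients of `A ‖z‖²` are `b_β = ∑_{j : β_j ≥ 1} c (β - e_j)`, `|β| = d + 1`.
-/

set_option autoImplicit false

namespace Pool.Agent.Results.MP_39acf6_an.DegreeIndependence

/-- Coefficient `b_β = ∑_{j : β_j ≥ 1} c (β - e_j)` of `|z^β|²` in `A ‖z‖²`. -/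
noncomputable def prolong {n : ℕ} (c : (Fin n → ℕ) → ℝ) (β : Fin n → ℕ) : ℝ :=
  ∑ j ∈ Finset.univ.filter (fun j : Fin n => 1 ≤ β j), c (β - Pi.single j 1)

/-- The rank of `A ‖z‖²`: the number of multi-indices `β` with `|β| = d + 1` and `b_β ≠ 0`. -/
noncomputable def rank (n d : ℕ) (c : (Fin n → ℕ) → ℝ) : ℕ :=
  ((Finset.Nat.antidiagonalTuple n (d + 1)).filter (fun β => prolong c β ≠ 0)).card

/-- `A` is not a sum of squares (some coefficient `c α`, `|α| = d`, is negative), but `A ‖z‖²` is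
(all `b_β`, `|β| = d + 1`, are nonnegative). -/
def Admissible (n d : ℕ) (c : (Fin n → ℕ) → ℝ) : Prop :=
  (∃ α ∈ Finset.Nat.antidiagonalTuple n d, c α < 0) ∧
    ∀ β ∈ Finset.Nat.antidiagonalTuple n (d + 1), 0 ≤ prolong c β

/-- `R^{Diag}_{n,d}`: the infimum of the ranks of `A ‖z‖²` over all admissible `A`. -/
noncomputable def RDiag (n d : ℕ) : ℕ := sInf {r | ∃ c, Admissible n d c ∧ rank n d c = r}

lemma isLeast (n d : ℕ) (hn : 2 ≤ n) (hd : 2 ≤ d) :
    IsLeast {r | ∃ c, Admissible n d c ∧ rank n d c = r}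
      (if n = 4 then 8 else (n + 1).choose 2 - 1) := by
  have low : ∀ c, Admissible n d c → (if n = 4 then 8 else (n + 1).choose 2 - 1) ≤ rank n d c :=
    fun c hc => W739.SOS.lower_all hn c hc.1 hc.2
  constructor
  · by_cases h4 : n = 4
    · subst h4
      obtain ⟨c, h1, h2, h3⟩ := W739.SOS.example4 d hd
      have hc : Admissible 4 d c := ⟨h1, fun β _ => h2 β⟩
      exact ⟨c, hc, le_antisymm (by rw [if_pos rfl]; exact h3) (low c hc)⟩
    · obtain ⟨c, h1, h2, h3⟩ := W739.SOS.example_upper n d hn hd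
      have hc : Admissible n d c := ⟨h1, fun β _ => h2 β⟩
      exact ⟨c, hc, le_antisymm (by rw [if_neg h4]; exact h3) (low c hc)⟩
  · rintro r ⟨c, hc, rfl⟩
    exact low c hc

/-- Q2: for all `n, d ≥ 2` the infimum `R^{Diag}_{n,d}` is attained and
`R^{Diag}_{n,d} = R^{Diag}_{n,d+1}`. -/
theorem result : ∀ n d : ℕ, 2 ≤ n → 2 ≤ d →
    (∃ c : (Fin n → ℕ) → ℝ, Admissible n d c ∧ rank n d c = RDiag n d) ∧
      RDiag n d = RDiag n (d + 1) := by
  intro n d hn hd
  have h1 := isLeast n d hn hd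
  have h2 := isLeast n (d + 1) hn (by omega)
  have e1 : RDiag n d = if n = 4 then 8 else (n + 1).choose 2 - 1 := h1.csInf_eq
  have e2 : RDiag n (d + 1) = if n = 4 then 8 else (n + 1).choose 2 - 1 := h2.csInf_eq
  refine ⟨?_, by rw [e1, e2]⟩
  rw [e1]
  exact h1.1

end Pool.Agent.Results.MP_39acf6_an.DegreeIndependence
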